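import Pool.Agent.H14.AVS.S1
import Pool.Agent.H33.AVR.COR

/-!
# NGH: Gram determinants are norms
-/

set_option autoImplicit false

namespace Pool.AVS

open Polynomial Matrix Pool.AVR

namespace NGH

variable {K : Type} [Field K] (a b c : K)

theorem tau_mk (p : K[X]) : tau a b c p = COR.T a b c (AdjoinRoot.mk _ p) :=
  (COR.T_mk a b c p).symm

/-- The power basis. -/
noncomputable def pb : Module.Basis (Fin 3) K (COR.L a b c) :=
  (AdjoinRoot.powerBasis' (COR.cub_monic a b c)).basis.reindex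
    (finCongr (by rw [AdjoinRoot.powerBasis'_dim, COR.cub_natDegree]))

theorem pb_apply (i : Fin 3) : pb a b c i = AdjoinRoot.mk (cub a b c) (X ^ (i : ℕ)) := by
  rw [pb, Module.Basis.reindex_apply, PowerBasis.basis_eq_pow, AdjoinRoot.powerBasis'_gen,
    map_pow, AdjoinRoot.mk_X]
  rfl

theorem mul_pb (η : COR.L a b c) (j : Fin 3) :
    η * pb a b c j = ∑ k, Algebra.leftMulMatrix (pb a b c) η k j • pb a b c k := by
  rw [← (pb a b c).sum_repr (η * pb a b c j)]
  refine Finset.sum_congr rfl fun k _ => ?_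
  rw [Algebra.leftMulMatrix_eq_repr_mul]

/-- The Gram matrix of `1, X, X²` for `τ`. -/
noncomputable def T0 : Matrix (Fin 3) (Fin 3) K :=
  Matrix.of fun i j => COR.T a b c (pb a b c i * pb a b c j)

theorem gr0_eq (h : K[X]) :
    gr0 a b c h = T0 a b c * Algebra.leftMulMatrix (pb a b c) (AdjoinRoot.mk _ h) := by
  ext i j
  rw [Matrix.mul_apply]
  change tau a b c (X ^ (i : ℕ) * X ^ (j : ℕ) * h) = _
  rw [tau_mk, map_mul (AdjoinRoot.mk (cub a b c)), map_mul (AdjoinRoot.mk (cub a b c)),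
    ← pb_apply, ← pb_apply, mul_assoc,
    mul_comm (pb a b c j) (AdjoinRoot.mk _ h), mul_pb, Finset.mul_sum, map_sum]
  refine Finset.sum_congr rfl fun k _ => ?_
  rw [mul_smul_comm, map_smul, smul_eq_mul, mul_comm]
  rfl

theorem T0_small (i j : Fin 3) (h : (i : ℕ) + j ≤ 2) :
    T0 a b c i j = if (i : ℕ) + j = 2 then 1 else 0 := by
  change COR.T a b c (pb a b c i * pb a b c j) = _
  rw [pb_apply, pb_apply, ← map_mul, COR.T_mk, ← pow_add, COR.tau_of_lt, coeff_X_pow]
  · by_cases h2 : (i : ℕ) + j = 2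
    · rw [if_pos h2, if_pos h2.symm]
    · rw [if_neg h2, if_neg (fun h3 => h2 h3.symm)]
  · refine lt_of_le_of_lt (degree_X_pow_le _) ?_
    exact_mod_cast (by omega : (i : ℕ) + j < 3)

theorem det_T0 : (T0 a b c).det = -1 := by
  rw [Matrix.det_fin_three]
  have h00 : T0 a b c 0 0 = 0 := T0_small a b c 0 0 (by decide)
  have h01 : T0 a b c 0 1 = 0 := T0_small a b c 0 1 (by decide)
  have h10 : T0 a b c 1 0 = 0 := T0_small a b c 1 0 (by decide)
  have h02 : T0 a b c 0 2 = 1 := T0_small a b c 0 2 (by decide)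
  have h20 : T0 a b c 2 0 = 1 := T0_small a b c 2 0 (by decide)
  have h11 : T0 a b c 1 1 = 1 := T0_small a b c 1 1 (by decide)
  rw [h00, h01, h10, h02, h20, h11]
  ring

theorem det_gr0 (h : K[X]) :
    (gr0 a b c h).det = -Algebra.norm K (AdjoinRoot.mk (cub a b c) h) := by
  rw [gr0_eq, Matrix.det_mul, det_T0, Algebra.norm_eq_matrix_det (pb a b c)]
  ring

/-- The matrix of three polynomials. -/
noncomputable def gm (e : Fin 3 → K[X]) : Matrix (Fin 3) (Fin 3) K :=
  Matrix.of fun k i => (pb a b c).repr (AdjoinRoot.mk _ (e i)) k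

theorem gm_eq (e : Fin 3 → K[X]) (i : Fin 3) :
    AdjoinRoot.mk (cub a b c) (e i) = ∑ k, gm a b c e k i • pb a b c k :=
  ((pb a b c).sum_repr _).symm

theorem gram_eq (h : K[X]) (e : Fin 3 → K[X]) :
    Matrix.of (fun i j => tau a b c (e i * e j * h)) =
      (gm a b c e)ᵀ * gr0 a b c h * gm a b c e := by
  ext i j
  rw [Matrix.mul_apply]
  simp only [Matrix.mul_apply, Matrix.transpose_apply, Matrix.of_apply]
  rw [tau_mk, map_mul (AdjoinRoot.mk (cub a b c)), map_mul (AdjoinRoot.mk (cub a b c)),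
    gm_eq, gm_eq, Finset.mul_sum, Finset.sum_mul, map_sum]
  refine Finset.sum_congr rfl fun l _ => ?_
  rw [Finset.sum_mul, Finset.sum_mul, Finset.sum_mul, map_sum]
  refine Finset.sum_congr rfl fun k _ => ?_
  have h1 : gr0 a b c h k l = COR.T a b c (pb a b c k * pb a b c l * AdjoinRoot.mk _ h) := by
    rw [pb_apply, pb_apply, ← map_mul, ← map_mul, COR.T_mk]
    rfl
  rw [h1, smul_mul_smul_comm, smul_mul_assoc, map_smul, smul_eq_mul]
  ring

end NGH

open NGH in
theorem ngh_thm : NGHStmt := by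
  intro K _ a b c h
  refine ⟨⟨fun i => X ^ (i : ℕ), fun i j => rfl, fun i j => rfl⟩, det_gr0 a b c h, ?_⟩
  rintro B ⟨e, he, _⟩
  have h1 : (AA K) = (gm a b c e)ᵀ * gr0 a b c h * gm a b c e := by
    rw [← gram_eq]
    ext i j
    exact (he i j).symm
  have h2 := congrArg Matrix.det h1
  have h3 : (AA K).det = -1 := by
    rw [Matrix.det_fin_three]
    simp [AA]
  rw [h3, Matrix.det_mul, Matrix.det_mul, Matrix.det_transpose, det_gr0] at h2
  have h4 : Algebra.norm K (AdjoinRoot.mk (cub a b c) h) * (gm a b c e).det ^ 2 = 1 := by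
    linear_combination h2
  constructor
  · have h5 : Algebra.norm K (AdjoinRoot.mk (cub a b c) h) ≠ 0 := by
      intro h6
      rw [h6, zero_mul] at h4
      exact zero_ne_one h4
    rw [Algebra.norm_apply] at h5
    have hfin : Module.Finite K (AdjoinRoot (cub a b c)) := Module.Finite.of_basis (pb a b c)
    have h6 := (LinearMap.isUnit_iff_isUnit_det _).2 (isUnit_iff_ne_zero.2 h5)
    obtain ⟨z, hz⟩ := ((Module.End.isUnit_iff _).1 h6).2 1
    obtain ⟨q, rfl⟩ := AdjoinRoot.mk_surjective z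
    have h7 : AdjoinRoot.mk (cub a b c) (h * q - 1) = 0 := by
      rw [map_sub, map_mul, map_one, sub_eq_zero]
      exact hz
    obtain ⟨r, hr⟩ := AdjoinRoot.mk_eq_zero.1 h7
    exact ⟨q, -r, by linear_combination hr⟩
  · have h7 : (gm a b c e).det ≠ 0 := by
      intro h6
      rw [h6] at h4
      simp at h4
    refine ⟨((gm a b c e).det)⁻¹, ?_⟩
    field_simp
    exact h4

end Pool.AVS
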