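import Pool.Agent.H14.AVS.S2

/-!
# TRS: the trivial class is soluble over a local field
-/

set_option autoImplicit false

namespace Pool.AVS

open Polynomial Matrix Pool.AVR

namespace TRS

theorem dbl_alg {K : Type} [Field K] {a b c x₁ y₁ l x₂ y₂ : K} (hy : y₁ ≠ 0)
    (h : OnC a b c x₁ y₁) (hl : 2 * y₁ * l = 3 * x₁ ^ 2 + 2 * a * x₁ + b)
    (hx : x₂ = l ^ 2 - a - 2 * x₁) (hy₂ : y₂ = -(y₁ + l * (x₂ - x₁))) :
    OnC a b c x₂ y₂ ∧ ∃ s : K[X], cub a b c ∣ (C x₂ - X) - 1 * s ^ 2 := by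
  have h' : y₁ ^ 2 = x₁ ^ 3 + a * x₁ ^ 2 + b * x₁ + c := h
  constructor
  · change y₂ ^ 2 = x₂ ^ 3 + a * x₂ ^ 2 + b * x₂ + c
    have e1 : x₂ ^ 3 + a * x₂ ^ 2 + b * x₂ + c - (y₁ + l * (x₂ - x₁)) ^ 2 =
        (x₂ - x₁) ^ 2 * (x₂ - (l ^ 2 - a - 2 * x₁)) := by
      linear_combination (-1 : K) * h' - (x₂ - x₁) * hl
    rw [← hx, sub_self, mul_zero] at e1
    rw [hy₂]
    linear_combination -e1
  · refine ⟨C l - C (y₁⁻¹) * (X ^ 2 + C (x₁ + a) * X + C (x₁ ^ 2 + a * x₁ + b)),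
      -C ((y₁ ^ 2)⁻¹) * (X + C (2 * x₁ + a)), ?_⟩
    have e2 : (C (y₁ ^ 2) : K[X]) ≠ 0 := C_ne_zero.2 (pow_ne_zero 2 hy)
    apply mul_left_cancel₀ e2
    have e3 : (C (y₁ ^ 2) : K[X]) * C ((y₁ ^ 2)⁻¹) = 1 := by
      rw [← C_mul, mul_inv_cancel₀ (pow_ne_zero 2 hy), C_1]
    have e4 : (C y₁ : K[X]) * C (y₁⁻¹) = 1 := by
      rw [← C_mul, mul_inv_cancel₀ hy, C_1]
    have e5 : (C y₁ : K[X]) ^ 2 = C x₁ ^ 3 + C a * C x₁ ^ 2 + C b * C x₁ + C c := by
      simp only [← C_pow, ← C_mul, ← C_add]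
      rw [h']
    have e6 : 2 * (C y₁ : K[X]) * C l = 3 * C x₁ ^ 2 + 2 * C a * C x₁ + C b := by
      have h3 : (3 : K[X]) = C (3 : K) := (map_ofNat C 3).symm
      have h4 : (2 : K[X]) = C (2 : K) := (map_ofNat C 2).symm
      rw [h3, h4]
      simp only [← C_pow, ← C_mul, ← C_add]
      rw [hl]
    have e7 : (C x₂ : K[X]) = C l ^ 2 - C a - 2 * C x₁ := by
      have h4 : (2 : K[X]) = C (2 : K) := (map_ofNat C 2).symm
      rw [h4]
      simp only [← C_pow, ← C_mul, ← C_sub]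
      rw [hx]
    have h4 : (2 : K[X]) = C (2 : K) := (map_ofNat C 2).symm
    have e8 : (C (2 * x₁ + a) : K[X]) = 2 * C x₁ + C a := by
      rw [C_add, C_mul, h4]
    have e9 : (C (x₁ ^ 2 + a * x₁ + b) : K[X]) = C x₁ ^ 2 + C a * C x₁ + C b := by
      rw [C_add, C_add, C_mul, C_pow]
    have e10 : (C (x₁ + a) : K[X]) = C x₁ + C a := C_add
    rw [e7, e8, e9, e10, cub]
    rw [C_pow] at e3 ⊢
    generalize (C y₁ : K[X]) = Y at *
    generalize (C y₁⁻¹ : K[X]) = Y' at *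
    generalize (C ((y₁ ^ 2)⁻¹) : K[X]) = Y2 at *
    generalize (C x₁ : K[X]) = x at *
    generalize (C l : K[X]) = L at *
    generalize (C a : K[X]) = A at *
    generalize (C b : K[X]) = B at *
    generalize (C c : K[X]) = D at *
    have k1 : Y ^ 2 * (L - Y' * (X ^ 2 + (x + A) * X + (x ^ 2 + A * x + B))) ^ 2 =
        (Y * L - (X ^ 2 + (x + A) * X + (x ^ 2 + A * x + B))) ^ 2 := by
      linear_combination (-(X ^ 2 + (x + A) * X + (x ^ 2 + A * x + B)) *
        (2 * Y * L - Y * Y' * (X ^ 2 + (x + A) * X + (x ^ 2 + A * x + B)) -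
          (X ^ 2 + (x + A) * X + (x ^ 2 + A * x + B)))) * e4
    linear_combination -k1 - (A + 2 * x + X) * e5 +
      (X ^ 2 + (x + A) * X + (x ^ 2 + A * x + B)) * e6 +
      (X ^ 3 + A * X ^ 2 + B * X + D) * (X + (2 * x + A)) * e3

/-- Elements of the maximal ideal. -/
theorem mem_max {L : Type} [Field L] {O : ValuationSubring L} {π : L} (h : Loc L O π) (x : O)
    (hx : (x : L) / π ∈ O) : x ∈ IsLocalRing.maximalIdeal O := by
  rw [IsLocalRing.mem_maximalIdeal, mem_nonunits_iff]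
  intro hu
  obtain ⟨y, hy⟩ := hu.exists_right_inv
  have hy' : (x : L) * (y : L) = 1 := by
    rw [← MulMemClass.coe_mul, hy]
    rfl
  have hx0 : (x : L) ≠ 0 := by
    intro h0
    rw [h0, zero_mul] at hy'
    exact zero_ne_one hy'
  apply (h.unif x x.2 hx0).2 hx
  rw [← eq_inv_of_mul_eq_one_right hy']
  exact y.2

/-- Every element becomes small after multiplication with a power of the uniformizer. -/
theorem small {L : Type} [Field L] {O : ValuationSubring L} {π : L} (h : Loc L O π) (x : L) :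
    ∃ N : ℕ, ∀ j : ℕ, N ≤ j → x * π ^ j / π ∈ O := by
  by_cases hx : x = 0
  · refine ⟨0, fun j _ => ?_⟩
    rw [hx, zero_mul, zero_div]
    exact O.zero_mem
  obtain ⟨n, h1, _⟩ := h.arch x hx
  refine ⟨(1 - n).toNat, fun j hj => ?_⟩
  have h2 : x * π ^ j / π = (x / π ^ n) * π ^ ((j : ℤ) + n - 1).toNat := by
    have h3 : (((j : ℤ) + n - 1).toNat : ℤ) = (j : ℤ) + n - 1 := by omega
    rw [← zpow_natCast π (((j : ℤ) + n - 1).toNat), h3, zpow_sub₀ h.pi_ne, zpow_add₀ h.pi_ne,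
      zpow_natCast, zpow_one]
    have h4 := zpow_ne_zero n h.pi_ne
    have h5 := h.pi_ne
    field_simp
  rw [h2]
  exact O.mul_mem _ _ h1 (pow_mem h.pi_mem _)

end TRS

open TRS in
theorem trs_thm : TRSStmt := by
  intro L _ O π h a b c
  obtain ⟨Na, hNa⟩ := small h a
  obtain ⟨Nb, hNb⟩ := small h b
  obtain ⟨Nc, hNc⟩ := small h c
  obtain ⟨j, hj⟩ : ∃ j : ℕ, j = max Na (max Nb Nc) := ⟨_, rfl⟩
  obtain ⟨p, hp⟩ : ∃ p : L, p = π ^ j := ⟨_, rfl⟩
  have hp0 : p ≠ 0 := by rw [hp]; exact pow_ne_zero _ h.pi_ne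
  have ha : a * p ^ 2 / π ∈ O := by
    rw [hp, ← pow_mul]
    exact hNa _ (by omega)
  have hb : b * p ^ 4 / π ∈ O := by
    rw [hp, ← pow_mul]
    exact hNb _ (by omega)
  have hc : c * p ^ 6 / π ∈ O := by
    rw [hp, ← pow_mul]
    exact hNc _ (by omega)
  have hO : ∀ x : L, x / π ∈ O → x ∈ O := by
    intro x hx
    have h1 := O.mul_mem _ _ hx h.pi_mem
    rwa [div_mul_cancel₀ _ h.pi_ne] at h1
  obtain ⟨a', ha'⟩ : ∃ a' : O, (a' : L) = a * p ^ 2 := ⟨⟨_, hO _ ha⟩, rfl⟩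
  obtain ⟨b', hb'⟩ : ∃ b' : O, (b' : L) = b * p ^ 4 := ⟨⟨_, hO _ hb⟩, rfl⟩
  obtain ⟨c', hc'⟩ : ∃ c' : O, (c' : L) = c * p ^ 6 := ⟨⟨_, hO _ hc⟩, rfl⟩
  have ma : a' ∈ IsLocalRing.maximalIdeal O := mem_max h _ (by rw [ha']; exact ha)
  have mb : b' ∈ IsLocalRing.maximalIdeal O := mem_max h _ (by rw [hb']; exact hb)
  have mc : c' ∈ IsLocalRing.maximalIdeal O := mem_max h _ (by rw [hc']; exact hc)
  obtain ⟨d, hd⟩ : ∃ d : O, (d : L) = (2 : L)⁻¹ := ⟨⟨_, h.two.2⟩, rfl⟩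
  have hd2 : 2 * d = 1 := by
    apply Subtype.ext
    change (2 : L) * (d : L) = 1
    rw [hd, mul_inv_cancel₀ h.two.1]
  have hens := h.hens
  obtain ⟨u, hu1, hu2⟩ := hens.is_henselian (X ^ 2 - C (1 + a' + b' + c') : O[X])
    (monic_X_pow_sub_C _ two_ne_zero) 1
    (by
      rw [eval_sub, eval_pow, eval_X, eval_C]
      have h1 : (1 : O) ^ 2 - (1 + a' + b' + c') = -(a' + b' + c') := by ring
      rw [h1]
      exact neg_mem (add_mem (add_mem ma mb) mc))
    (by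
      rw [derivative_sub, derivative_C, sub_zero, derivative_X_pow, eval_mul, eval_C, eval_pow,
        eval_X, one_pow, mul_one]
      exact IsUnit.of_mul_eq_one d (by push_cast; exact hd2))
  have hu : u ^ 2 = 1 + a' + b' + c' := by
    have h1 : eval u (X ^ 2 - C (1 + a' + b' + c') : O[X]) = 0 := hu1
    rw [eval_sub, eval_pow, eval_X, eval_C] at h1
    exact sub_eq_zero.1 h1
  have huu : IsUnit u := by
    by_contra h1
    have h2 : u ∈ IsLocalRing.maximalIdeal O := (IsLocalRing.mem_maximalIdeal u).2 h1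
    have h3 : (1 : O) ∈ IsLocalRing.maximalIdeal O := by
      have h4 : (1 : O) = u - (u - 1) := by ring
      rw [h4]
      exact sub_mem h2 hu2
    exact (Ideal.ne_top_iff_one _).1 (IsLocalRing.maximalIdeal.isMaximal O).ne_top h3
  obtain ⟨v, hv⟩ := huu.exists_right_inv
  obtain ⟨w, hw⟩ : ∃ w : O, w = d * v := ⟨_, rfl⟩
  have hw2 : 2 * u * w = 1 := by
    rw [hw]
    linear_combination (u * v) * hd2 + hv
  obtain ⟨l, hl⟩ : ∃ l : O, l = (3 + 2 * a' + b') * w := ⟨_, rfl⟩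
  obtain ⟨x, hx⟩ : ∃ x : O, x = l ^ 2 - a' - 2 := ⟨_, rfl⟩
  obtain ⟨y, hy⟩ : ∃ y : O, y = -(u + l * (x - 1)) := ⟨_, rfl⟩
  have hl2 : 2 * u * l = 3 + 2 * a' + b' := by
    rw [hl]
    linear_combination (3 + 2 * a' + b') * hw2
  have hy0 : y ≠ 0 := by
    intro h0
    have ra : IsLocalRing.residue O a' = 0 := (IsLocalRing.residue_eq_zero_iff a').2 ma
    have rb : IsLocalRing.residue O b' = 0 := (IsLocalRing.residue_eq_zero_iff b').2 mb
    have ru : IsLocalRing.residue O u - 1 = 0 := by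
      rw [← map_one (IsLocalRing.residue O), ← map_sub]
      exact (IsLocalRing.residue_eq_zero_iff _).2 hu2
    have rw2 := congrArg (IsLocalRing.residue O) hw2
    have rl := congrArg (IsLocalRing.residue O) hl
    have rx := congrArg (IsLocalRing.residue O) hx
    have ry := congrArg (IsLocalRing.residue O) hy
    rw [h0] at ry
    simp only [map_mul, map_add, map_sub, map_neg, map_pow, map_one, map_ofNat, map_zero, ra, rb]
      at rw2 rl rx ry
    generalize IsLocalRing.residue O u = U at *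
    generalize IsLocalRing.residue O w = W at *
    generalize IsLocalRing.residue O l = M at *
    generalize IsLocalRing.residue O x = Z at *
    have hU : U = 1 := sub_eq_zero.1 ru
    rw [hU] at rw2 ry
    rw [rx, rl] at ry
    have h1 : (1 : IsLocalRing.ResidueField O) = 0 := by
      have q1 : 2 * W = 1 := by linear_combination rw2
      have q2 : 4 * W ^ 2 = 1 := by linear_combination (2 * W + 1) * q1
      have q3 : 8 * W ^ 3 = 1 := by linear_combination (4 * W ^ 2) * q1 + q2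
      linear_combination (-8) * ry - 36 * q1 + 27 * q3
    exact one_ne_zero h1
  have u0 : (u : L) ≠ 0 := by
    intro h0
    have h1 : u = 0 := Subtype.ext h0
    rw [h1, zero_mul] at hv
    exact zero_ne_one hv
  have hu' : (u : L) ^ 2 = 1 + a * p ^ 2 + b * p ^ 4 + c * p ^ 6 := by
    rw [← ha', ← hb', ← hc']
    have h1 := congrArg (Subtype.val) hu
    exact h1
  have hl' : 2 * (u : L) * l = 3 + 2 * (a * p ^ 2) + b * p ^ 4 := by
    rw [← ha', ← hb']
    have h1 := congrArg (Subtype.val) hl2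
    exact h1
  have hx' : (x : L) = (l : L) ^ 2 - a * p ^ 2 - 2 := by
    rw [← ha']
    have h1 := congrArg (Subtype.val) hx
    exact h1
  have hy' : (y : L) = -((u : L) + l * (x - 1)) := by
    have h1 := congrArg (Subtype.val) hy
    exact h1
  have hd3 := dbl_alg (a := a) (b := b) (c := c) (x₁ := 1 / p ^ 2) (y₁ := (u : L) / p ^ 3)
    (l := (l : L) / p) (x₂ := (x : L) / p ^ 2) (y₂ := (y : L) / p ^ 3)
    (div_ne_zero u0 (pow_ne_zero _ hp0))
    (by
      change ((u : L) / p ^ 3) ^ 2 = (1 / p ^ 2) ^ 3 + a * (1 / p ^ 2) ^ 2 + b * (1 / p ^ 2) + c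
      field_simp
      linear_combination hu')
    (by
      field_simp
      linear_combination hl')
    (by
      field_simp
      linear_combination hx')
    (by
      field_simp
      linear_combination hy')
  refine ⟨_, _, hd3.1, div_ne_zero ?_ (pow_ne_zero _ hp0), hd3.2⟩
  intro h0
  exact hy0 (Subtype.ext h0)


end Pool.AVS
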