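import Pool.Agent.H14.AVS.S1
import Pool.Agent.H33.AVR.COR

/-!
# EXH: every symmetric matrix is the Gram matrix of a class
-/

set_option autoImplicit false

namespace Pool.AVS

open Polynomial Matrix Pool.AVR

namespace EXH

variable {K : Type} [Field K]

theorem tau_congr {a b c : K} {p q : K[X]} (h : cub a b c ∣ p - q) :
    tau a b c p = tau a b c q := by
  rw [← COR.T_mk, ← COR.T_mk]
  congr 1
  rw [← sub_eq_zero, ← map_sub]
  exact AdjoinRoot.mk_eq_zero.2 h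

theorem tau_quad (a b c u v w : K) : tau a b c (C u * X ^ 2 + C v * X + C w) = u := by
  rw [COR.tau_of_lt]
  · simp
  · exact lt_of_le_of_lt degree_quadratic_le (by decide)

theorem tau_X_quad (a b c u v w : K) :
    tau a b c (X * (C u * X ^ 2 + C v * X + C w)) = v - a * u := by
  rw [← tau_quad a b c (v - a * u) (w - b * u) (-(c * u))]
  apply tau_congr
  refine ⟨C u, ?_⟩
  rw [cub, C_sub, C_sub, C_neg, C_mul, C_mul, C_mul]
  ring

/-- Von Neumann regularity. -/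
theorem vn {f : K[X]} (hf : f.Separable) (x : AdjoinRoot f) : ∃ y, x * x * y = x := by
  classical
  obtain ⟨p, rfl⟩ := AdjoinRoot.mk_surjective x
  obtain ⟨q, hq⟩ := EuclideanDomain.gcd_dvd_right p f
  obtain ⟨p', hp'⟩ := EuclideanDomain.gcd_dvd_left p f
  obtain ⟨d, hd⟩ : ∃ d, d = EuclideanDomain.gcd p f := ⟨_, rfl⟩
  rw [← hd] at hq hp'
  have h1 : IsCoprime d q := by
    rw [hq] at hf
    exact hf.isCoprime
  have hd0 : d ≠ 0 := by
    intro h0
    rw [h0, zero_mul] at hq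
    exact hf.ne_zero hq
  have h2 : IsCoprime p' q := by
    have h3 := EuclideanDomain.gcd_eq_gcd_ab p f
    rw [← hd] at h3
    refine ⟨EuclideanDomain.gcdA p f, EuclideanDomain.gcdB p f, ?_⟩
    apply mul_left_cancel₀ hd0
    generalize EuclideanDomain.gcdA p f = A at *
    generalize EuclideanDomain.gcdB p f = B at *
    linear_combination -h3 - A * hp' - B * hq
  have h3 : IsCoprime p q := by
    rw [hp']
    exact IsCoprime.mul_left h1 h2
  obtain ⟨r, s, hrs⟩ := h3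
  refine ⟨AdjoinRoot.mk f r, ?_⟩
  rw [← map_mul, ← map_mul, ← sub_eq_zero, ← map_sub, AdjoinRoot.mk_eq_zero]
  refine ⟨-(p' * s), ?_⟩
  rw [hq]
  linear_combination p * hrs - s * q * hp'

/-- The purely algebraic part: a symmetric matrix of rank one over a reduced algebra. -/
theorem rank_one {L : Type} [CommRing L] (hvn : ∀ x : L, ∃ y, x * x * y = x)
    {s00 s01 s02 s11 s12 s22 : L} (m1 : s00 * s11 = s01 ^ 2) (m2 : s00 * s22 = s02 ^ 2)
    (m3 : s11 * s22 = s12 ^ 2) (m4 : s00 * s12 = s01 * s02) (m5 : s11 * s02 = s01 * s12)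
    (m6 : s22 * s01 = s02 * s12) (hu : ∃ u, u * (2 * s02 + s11) = 1) :
    ∃ (h s : L) (e : Fin 3 → L), h * s = 1 ∧ h * (e 0 * e 0) = s00 ∧ h * (e 0 * e 1) = s01 ∧
      h * (e 0 * e 2) = s02 ∧ h * (e 1 * e 1) = s11 ∧ h * (e 1 * e 2) = s12 ∧
      h * (e 2 * e 2) = s22 := by
  have sq0 : ∀ x : L, x ^ 2 = 0 → x = 0 := by
    intro x hx
    obtain ⟨y, hy⟩ := hvn x
    rw [← hy, ← sq, hx, zero_mul]
  obtain ⟨y0, h0⟩ := hvn s00
  obtain ⟨y1, h1⟩ := hvn s11
  obtain ⟨y2, h2⟩ := hvn s22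
  obtain ⟨u, hu⟩ := hu
  -- the complementary idempotents
  obtain ⟨a0, ha0⟩ : ∃ a, a = 1 - s00 * y0 := ⟨_, rfl⟩
  obtain ⟨a1, ha1⟩ : ∃ a, a = 1 - s11 * y1 := ⟨_, rfl⟩
  obtain ⟨a2, ha2⟩ : ∃ a, a = 1 - s22 * y2 := ⟨_, rfl⟩
  have i0 : a0 * a0 = a0 := by
    rw [ha0]
    linear_combination y0 * h0
  have i1 : a1 * a1 = a1 := by
    rw [ha1]
    linear_combination y1 * h1
  have i2 : a2 * a2 = a2 := by
    rw [ha2]
    linear_combination y2 * h2
  have k0 : a0 * s00 = 0 := by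
    rw [ha0]
    linear_combination -h0
  have k1 : a1 * s11 = 0 := by
    rw [ha1]
    linear_combination -h1
  have k2 : a2 * s22 = 0 := by
    rw [ha2]
    linear_combination -h2
  have z02 : a0 * a1 * a2 * s02 = 0 := by
    apply sq0
    linear_combination (-(a0 ^ 2 * a1 ^ 2 * a2 ^ 2)) * m2 + (a0 * a1 ^ 2 * a2 ^ 2 * s22) * k0
  have zz0 : a0 * a1 * a2 = 0 := by
    linear_combination (-(a0 * a1 * a2)) * hu + 2 * u * z02 + (u * a0 * a2) * k1
  obtain ⟨v0, hv0⟩ : ∃ v, v = 1 - a0 := ⟨_, rfl⟩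
  obtain ⟨v1, hv1⟩ : ∃ v, v = a0 * (1 - a1) := ⟨_, rfl⟩
  obtain ⟨v2, hv2⟩ : ∃ v, v = a0 * a1 * (1 - a2) := ⟨_, rfl⟩
  have hsum : v0 + v1 + v2 = 1 := by
    rw [hv0, hv1, hv2]
    linear_combination -zz0
  have p00 : v0 * v0 = v0 := by
    rw [hv0]
    linear_combination i0
  have p11 : v1 * v1 = v1 := by
    rw [hv1]
    linear_combination ((1 - a1) ^ 2) * i0 + a0 * i1
  have p22 : v2 * v2 = v2 := by
    rw [hv2]
    linear_combination (a1 ^ 2 * (1 - a2) ^ 2) * i0 + (a0 * (1 - a2) ^ 2) * i1 + (a0 * a1) * i2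
  have p01 : v0 * v1 = 0 := by
    rw [hv0, hv1]
    linear_combination (-(1 - a1)) * i0
  have p02 : v0 * v2 = 0 := by
    rw [hv0, hv2]
    linear_combination (-(a1 * (1 - a2))) * i0
  have p12 : v1 * v2 = 0 := by
    rw [hv1, hv2]
    linear_combination (-(a0 ^ 2 * (1 - a2))) * i1
  have w0 : v0 * (s00 * y0) = v0 := by
    have e1 : v0 = s00 * y0 := by rw [hv0, ha0]; ring
    rw [e1]
    linear_combination y0 * h0
  have w1 : v1 * (s11 * y1) = v1 := by
    rw [hv1, ha1]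
    linear_combination (a0 * y1) * h1
  have w2 : v2 * (s22 * y2) = v2 := by
    rw [hv2, ha2]
    linear_combination (a0 * a1 * y2) * h2
  obtain ⟨s, hs⟩ : ∃ s, s = v0 * s00 + v1 * s11 + v2 * s22 := ⟨_, rfl⟩
  obtain ⟨h, hh⟩ : ∃ h, h = v0 * y0 + v1 * y1 + v2 * y2 := ⟨_, rfl⟩
  have hhs : h * s = 1 := by
    rw [hh, hs]
    linear_combination (s00 * y0) * p00 + (s11 * y1) * p11 + (s22 * y2) * p22 +
      (y0 * s11 + y1 * s00) * p01 + (y0 * s22 + y2 * s00) * p02 + (y1 * s22 + y2 * s11) * p12 +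
      w0 + w1 + w2 + hsum
  have key : ∀ x e e' : L, e * e' = s * x → h * (e * e') = x := by
    intro x e e' hx
    rw [hx]
    linear_combination x * hhs
  refine ⟨h, s, ![s00 * v0 + s01 * v1 + s02 * v2, s01 * v0 + s11 * v1 + s12 * v2,
    s02 * v0 + s12 * v1 + s22 * v2], hhs, ?_, ?_, ?_, ?_, ?_, ?_⟩
  all_goals
    apply key
    simp only [Matrix.cons_val_zero, Matrix.cons_val_one, Matrix.cons_val]
    rw [hs]
  · linear_combination (s00 ^ 2) * p00 + (s01 ^ 2) * p11 + (s02 ^ 2) * p22 +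
      (2 * s00 * s01) * p01 + (2 * s00 * s02) * p02 + (2 * s01 * s02) * p12 - v1 * m1 - v2 * m2
  · linear_combination (s00 * s01) * p00 + (s01 * s11) * p11 + (s02 * s12) * p22 +
      (s00 * s11 + s01 ^ 2) * p01 + (s00 * s12 + s01 * s02) * p02 +
      (s01 * s12 + s02 * s11) * p12 - v2 * m6
  · linear_combination (s00 * s02) * p00 + (s01 * s12) * p11 + (s02 * s22) * p22 +
      (s00 * s12 + s01 * s02) * p01 + (s00 * s22 + s02 ^ 2) * p02 +
      (s01 * s22 + s02 * s12) * p12 - v1 * m5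
  · linear_combination (s01 ^ 2) * p00 + (s11 ^ 2) * p11 + (s12 ^ 2) * p22 +
      (2 * s01 * s11) * p01 + (2 * s01 * s12) * p02 + (2 * s11 * s12) * p12 - v0 * m1 - v2 * m3
  · linear_combination (s01 * s02) * p00 + (s11 * s12) * p11 + (s12 * s22) * p22 +
      (s01 * s12 + s02 * s11) * p01 + (s01 * s22 + s12 * s02) * p02 +
      (s11 * s22 + s12 ^ 2) * p12 - v0 * m4
  · linear_combination (s02 ^ 2) * p00 + (s12 ^ 2) * p11 + (s22 ^ 2) * p22 +
      (2 * s02 * s12) * p01 + (2 * s02 * s22) * p02 + (2 * s12 * s22) * p12 - v0 * m2 - v1 * m3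

end EXH

open EXH in
theorem exh_thm : EXHStmt := by
  intro K _ B hB hsep
  have s10 : B 1 0 = B 0 1 := by
    have h := congrFun (congrFun hB 0) 1
    exact h
  have s20 : B 2 0 = B 0 2 := by
    have h := congrFun (congrFun hB 0) 2
    exact h
  have s21 : B 2 1 = B 1 2 := by
    have h := congrFun (congrFun hB 1) 2
    exact h
  have eic : ic B = B 0 0 * B 1 1 * B 2 2 - B 0 0 * B 1 2 ^ 2 - B 0 1 ^ 2 * B 2 2 +
      2 * (B 0 1 * B 1 2 * B 0 2) - B 0 2 ^ 2 * B 1 1 := by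
    rw [ic, Matrix.det_fin_three, s10, s20, s21]
    ring
  have eib : ib B = 2 * B 0 2 * B 1 1 - 2 * B 1 2 * B 0 1 + B 0 2 ^ 2 - B 2 2 * B 0 0 := rfl
  have eia : ia B = -(2 * B 0 2 + B 1 1) := rfl
  generalize ia B = a at *
  generalize ib B = b at *
  generalize ic B = c at *
  have hmk : ∀ p : K[X], cub a b c ∣ p → AdjoinRoot.mk (cub a b c) p = 0 := fun p hp =>
    AdjoinRoot.mk_eq_zero.2 hp
  obtain ⟨p, hp⟩ : ∃ p, p = B 0 0 := ⟨_, rfl⟩
  obtain ⟨q, hq⟩ : ∃ q, q = B 0 1 := ⟨_, rfl⟩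
  obtain ⟨r, hr⟩ : ∃ r, r = B 0 2 := ⟨_, rfl⟩
  obtain ⟨s, hs⟩ : ∃ s, s = B 1 1 := ⟨_, rfl⟩
  obtain ⟨t, ht⟩ : ∃ t, t = B 1 2 := ⟨_, rfl⟩
  obtain ⟨u, hu⟩ : ∃ u, u = B 2 2 := ⟨_, rfl⟩
  rw [← hp, ← hq, ← hr, ← hs, ← ht, ← hu] at eic eib
  rw [← hr, ← hs] at eia
  have fe : cub a b c = X ^ 3 - (2 * C r + C s) * X ^ 2 +
      (2 * C r * C s - 2 * C t * C q + C r ^ 2 - C u * C p) * X +
      (C p * C s * C u - C p * C t ^ 2 - C q ^ 2 * C u + 2 * (C q * C t * C r) -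
        C r ^ 2 * C s) := by
    have h2 : (C (2 : K) : K[X]) = 2 := map_ofNat C 2
    rw [cub, eic, eib, eia]
    simp only [C_add, C_sub, C_mul, C_neg, C_pow, h2]
    ring
  obtain ⟨S00, h00⟩ : ∃ S : K[X], S = C p * X + (C q ^ 2 - C p * C s) := ⟨_, rfl⟩
  obtain ⟨S01, h01⟩ : ∃ S : K[X], S = C q * X + (C p * C t - C q * C r) := ⟨_, rfl⟩
  obtain ⟨S02, h02⟩ : ∃ S : K[X], S = X ^ 2 - (C r + C s) * X + (C r * C s - C q * C t) :=
    ⟨_, rfl⟩
  obtain ⟨S11, h11⟩ : ∃ S : K[X], S = X ^ 2 - 2 * C r * X + (C r ^ 2 - C p * C u) := ⟨_, rfl⟩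
  obtain ⟨S12, h12⟩ : ∃ S : K[X], S = C t * X + (C q * C u - C t * C r) := ⟨_, rfl⟩
  obtain ⟨S22, h22⟩ : ∃ S : K[X], S = C u * X + (C t ^ 2 - C s * C u) := ⟨_, rfl⟩
  have hmin : ∀ P Q R S Z : K[X], P * Q - R * S = cub a b c * Z →
      AdjoinRoot.mk (cub a b c) P * AdjoinRoot.mk (cub a b c) Q =
        AdjoinRoot.mk (cub a b c) R * AdjoinRoot.mk (cub a b c) S := by
    intro P Q R S Z hPQ
    rw [← map_mul, ← map_mul, ← sub_eq_zero, ← map_sub]
    exact hmk _ ⟨Z, hPQ⟩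
  obtain ⟨h, w, e, ehs, e00, e01, e02, e11, e12, e22⟩ := rank_one (vn hsep)
    (s00 := AdjoinRoot.mk (cub a b c) S00) (s01 := AdjoinRoot.mk (cub a b c) S01)
    (s02 := AdjoinRoot.mk (cub a b c) S02) (s11 := AdjoinRoot.mk (cub a b c) S11)
    (s12 := AdjoinRoot.mk (cub a b c) S12) (s22 := AdjoinRoot.mk (cub a b c) S22)
    (by
      rw [sq]
      refine hmin _ _ _ _ (C p) ?_
      rw [fe, h00, h11, h01]
      ring)
    (by
      rw [sq]
      refine hmin _ _ _ _ (-(X - C s)) ?_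
      rw [fe, h00, h22, h02]
      ring)
    (by
      rw [sq]
      refine hmin _ _ _ _ (C u) ?_
      rw [fe, h11, h22, h12]
      ring)
    (by
      refine hmin _ _ _ _ (-C q) ?_
      rw [fe, h00, h12, h01, h02]
      ring)
    (by
      refine hmin _ _ _ _ (X - C r) ?_
      rw [fe, h11, h02, h01, h12]
      ring)
    (by
      refine hmin _ _ _ _ (-C t) ?_
      rw [fe, h22, h01, h02, h12]
      ring)
    (by
      obtain ⟨A, D, hAD⟩ := hsep
      refine ⟨AdjoinRoot.mk (cub a b c) D, ?_⟩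
      have hd : derivative (cub a b c) = 2 * S02 + S11 := by
        have h2 : (C (2 : K) : K[X]) = 2 := map_ofNat C 2
        have h3 : (C (3 : K) : K[X]) = 3 := map_ofNat C 3
        rw [cub, h02, h11]
        simp only [derivative_add, derivative_mul, derivative_X_pow, derivative_X, derivative_C,
          zero_mul, zero_add, add_zero, mul_one, h2, h3, Nat.cast_ofNat]
        rw [eib, eia]
        simp only [C_add, C_sub, C_mul, C_neg, C_pow, h2]
        ring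
      have h2 : (2 : AdjoinRoot (cub a b c)) = AdjoinRoot.mk (cub a b c) 2 :=
        (map_ofNat (AdjoinRoot.mk (cub a b c)) 2).symm
      rw [h2, ← map_mul, ← map_add, ← map_mul, ← hd, ← map_one (AdjoinRoot.mk (cub a b c)),
        ← sub_eq_zero, ← map_sub]
      exact hmk _ ⟨-A, by linear_combination hAD⟩)
  obtain ⟨h', rfl⟩ := AdjoinRoot.mk_surjective h
  obtain ⟨w', rfl⟩ := AdjoinRoot.mk_surjective w
  obtain ⟨e', he'⟩ : ∃ e' : Fin 3 → K[X], ∀ i, AdjoinRoot.mk (cub a b c) (e' i) = e i :=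
    ⟨fun i => (AdjoinRoot.mk_surjective (e i)).choose,
      fun i => (AdjoinRoot.mk_surjective (e i)).choose_spec⟩
  simp only [← he'] at e00 e01 e02 e11 e12 e22
  have key : ∀ (i j : Fin 3) (S : K[X]) (x y z : K), AdjoinRoot.mk (cub a b c) h' *
      (AdjoinRoot.mk (cub a b c) (e' i) * AdjoinRoot.mk (cub a b c) (e' j)) =
        AdjoinRoot.mk (cub a b c) S → S = C x * X ^ 2 + C y * X + C z →
      (tau a b c (e' i * e' j * h') = x ∧ tau a b c (X * (e' i * e' j * h')) = y - a * x) ∧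
      (tau a b c (e' j * e' i * h') = x ∧ tau a b c (X * (e' j * e' i * h')) = y - a * x) := by
    intro i j S x y z h1 h2
    rw [← map_mul, ← map_mul, ← sub_eq_zero, ← map_sub, AdjoinRoot.mk_eq_zero] at h1
    obtain ⟨Q, hQ⟩ := h1
    have k1 : tau a b c (e' i * e' j * h') = x := by
      rw [← tau_quad a b c x y z, ← h2]
      exact tau_congr ⟨Q, by linear_combination hQ⟩
    have k2 : tau a b c (X * (e' i * e' j * h')) = y - a * x := by
      rw [← tau_X_quad a b c x y z, ← h2]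
      exact tau_congr ⟨X * Q, by linear_combination X * hQ⟩
    refine ⟨⟨k1, k2⟩, ?_, ?_⟩
    · rw [mul_comm (e' j) (e' i)]
      exact k1
    · rw [mul_comm (e' j) (e' i)]
      exact k2
  obtain ⟨⟨a00, b00⟩, _⟩ := key 0 0 _ 0 p (q ^ 2 - p * s) e00 (by
    rw [h00, C_sub, C_mul, C_pow, C_0]
    ring)
  obtain ⟨⟨a01, b01⟩, a10, b10⟩ := key 0 1 _ 0 q (p * t - q * r) e01 (by
    rw [h01, C_sub, C_mul, C_mul, C_0]
    ring)
  obtain ⟨⟨a02, b02⟩, a20, b20⟩ := key 0 2 _ 1 (-(r + s)) (r * s - q * t) e02 (by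
    rw [h02, C_sub, C_mul, C_mul, C_neg, C_add, C_1]
    ring)
  obtain ⟨⟨a11, b11⟩, _⟩ := key 1 1 _ 1 (-(2 * r)) (r ^ 2 - p * u) e11 (by
    rw [h11, C_sub, C_mul, C_pow, C_neg, C_mul, C_1, map_ofNat C 2]
    ring)
  obtain ⟨⟨a12, b12⟩, a21, b21⟩ := key 1 2 _ 0 t (q * u - t * r) e12 (by
    rw [h12, C_sub, C_mul, C_mul, C_0]
    ring)
  obtain ⟨⟨a22, b22⟩, _⟩ := key 2 2 _ 0 u (t ^ 2 - s * u) e22 (by
    rw [h22, C_sub, C_mul, C_pow, C_0]
    ring)
  refine ⟨h', ?_, e', ?_, ?_⟩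
  · rw [← map_mul, ← map_one (AdjoinRoot.mk (cub a b c)), ← sub_eq_zero, ← map_sub,
      AdjoinRoot.mk_eq_zero] at ehs
    obtain ⟨Q, hQ⟩ := ehs
    exact ⟨w', -Q, by linear_combination hQ⟩
  · intro i j
    fin_cases i <;> fin_cases j
    · exact a00
    · exact a01
    · exact a02
    · exact a10
    · exact a11
    · exact a12
    · exact a20
    · exact a21
    · exact a22
  · intro i j
    fin_cases i <;> fin_cases j
    · refine b00.trans ?_
      change p - a * 0 = B 0 0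
      rw [hp]
      ring
    · refine b01.trans ?_
      change q - a * 0 = B 0 1
      rw [hq]
      ring
    · refine b02.trans ?_
      change -(r + s) - a * 1 = B 0 2
      rw [eia, ← hr]
      ring
    · refine b10.trans ?_
      change q - a * 0 = B 1 0
      rw [s10, hq]
      ring
    · refine b11.trans ?_
      change -(2 * r) - a * 1 = B 1 1
      rw [eia, ← hs]
      ring
    · refine b12.trans ?_
      change t - a * 0 = B 1 2
      rw [ht]
      ring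
    · refine b20.trans ?_
      change -(r + s) - a * 1 = B 2 0
      rw [s20, eia, ← hr]
      ring
    · refine b21.trans ?_
      change t - a * 0 = B 2 1
      rw [s21, ht]
      ring
    · refine b22.trans ?_
      change u - a * 0 = B 2 2
      rw [hu]
      ring

end Pool.AVS
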